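import Pool.Agent.H57.SymRect

set_option autoImplicit false

namespace Pool.Agent.Results.MP_fbee13_lc.RectIff

theorem result :
    (∀ Z : Set ℝ, (∀ z ∈ Z, -z ∈ Z) → @MeasurableSet ℝ
        (MeasurableSpace.generateFrom {S : Set ℝ | ∃ G : AddSubgroup ℝ, (G : Set ℝ) = S}) Z) ↔
      ∀ S : Set (ℝ × ℝ), @MeasurableSet (ℝ × ℝ)
        (MeasurableSpace.generateFrom {T : Set (ℝ × ℝ) | ∃ A B : Set ℝ, T = A ×ˢ B}) S :=
  Pool.Agent.H57.SymRect.main

end Pool.Agent.Results.MP_fbee13_lc.RectIff
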