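import Pool.Agent.H57.SymRect

set_option autoImplicit false

namespace Pool.Agent.Results.MP_fbee13_lc.UnderCH

theorem result (h : Cardinal.continuum.{0} = Cardinal.aleph 1) :
    (∀ Z : Set ℝ, (∀ z ∈ Z, -z ∈ Z) → @MeasurableSet ℝ
        (MeasurableSpace.generateFrom {S : Set ℝ | ∃ G : AddSubgroup ℝ, (G : Set ℝ) = S}) Z) :=
  Pool.Agent.H57.SymRect.main.2 (Pool.Agent.H57.SymRect.rect_of_ch h)

end Pool.Agent.Results.MP_fbee13_lc.UnderCH
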